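import Pool.Agent.K7.H9.TP.SysDefs
import Pool.Agent.W547.DR.PoleDefs

/-!
# Tate's formula for the poles of the zeta functions of abelian varieties over finite fields: definitions
-/

set_option autoImplicit false

namespace Pool.Agent.K7.H9.TP

open Module Pool.Agent.W495.TA Pool.Agent.W547.DR

noncomputable section

variable {p : ℕ} [Fact p.Prime] {ν : PadicAlgCl p ≃+* ℂ} {Ω : Type} [Field Ω] [CharZero Ω]
  {Y : RedAV p ν}

/-- The zeta function with the Weil cohomology `⋀ V` and the Frobenius endomorphism `F` of `V`:
`∏ det (1 - q ^ (-z) F | ⋀ ^ j V) ^ ((-1) ^ (j + 1))`. -/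
def zetaFn {V : Type} [AddCommGroup V] [Module ℂ V] (q : ℝ) (F : V →ₗ[ℂ] V) (z : ℂ) : ℂ :=
  ∏ j ∈ Finset.range (finrank ℂ V + 1),
    (LinearMap.det (1 - (q : ℂ) ^ (-z) • exteriorPower.map j F)) ^ ((-1 : ℤ) ^ (j + 1))

/-- The rational subspace of the numerically trivial classes in `S n`. -/
def numTriv (S : Sys Ω Y) (n : ℕ) : Submodule ℚ (S n) :=
  Submodule.span ℚ {z | NumTrivial S (z : Coh Ω Y n)}

/-- The rank of the group of the classes of cycles modulo numerical equivalence. -/
def numRank (S : Sys Ω Y) (n : ℕ) : ℕ := finrank ℚ (S n ⧸ numTriv S n)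

/-- Tate's formula at the integer `n`: the order of the zeta function of `Y` over the extension of
degree `s` at `n` is the negative of the rank of the group of the classes of cycles of codimension `n`
modulo numerical equivalence. -/
def PoleAt {Y : RedAV p ν} (s : ℕ) (S : Sys ℂ Y) (n : ℕ) : Prop :=
  meromorphicOrderAt (zetaFn (((p ^ Y.a) ^ s : ℕ) : ℝ) (F ℂ Y ^ s)) n =
    ((-(numRank S n : ℤ) : ℤ) : WithTop ℤ)

/-- Tate's formula, and the agreement of numerical and homological equivalence. -/
def Formula {Y : RedAV p ν} (s : ℕ) (S : Sys ℂ Y) (n : ℕ) : Prop :=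
  PoleAt s S n ∧ ∀ z ∈ S n, NumTrivial S z → z = 0

/-- `𝒜` is the system of the linear combinations, with coefficients in `ℂ`, of the classes of
algebraic cycles on the abelian varieties over finite fields of characteristic `p`, and `C Y s n` is
the space of the rational linear combinations of the classes of algebraic cycles of codimension `n` on
`Y` over the extension of degree `s` of the ground field:

* the system `𝒜` is stable (it contains the Tate classes of degree two, by the theorem of Tate);
* the elements of `C Y s n` are Tate classes;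
* a Tate class over the extension of degree `s` is in `𝒜` if and only if it is a combination of
  elements of `C Y s n` with coefficients in `ℂ`;
* intersection numbers are rational. -/
structure IsCycleTheory (𝒜 : Classes p ν ℂ) (C : ∀ Y : RedAV p ν, ℕ → Sys ℂ Y) : Prop where
  stable : IsStable 𝒜
  tate : ∀ (Y : RedAV p ν) (s : ℕ), 0 < s → ∀ n, ∀ z ∈ C Y s n, IsTate s z
  mem : ∀ (Y : RedAV p ν) (s : ℕ), 0 < s → ∀ n, ∀ z : Coh ℂ Y n, IsTate s z →
    (𝒜 Y (Fin (2 * n)) z ↔ z ∈ Submodule.span ℂ (C Y s n : Set (Coh ℂ Y n)))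
  rational : ∀ (Y : RedAV p ν) (s : ℕ), 0 < s → RationalNumbers (C Y s)

/-- Tate's formula for all products of abelian varieties of dimension at most three, over all finite
fields, at all integers. -/
def AllPole (C : ∀ Y : RedAV p ν, ℕ → Sys ℂ Y) : Prop :=
  ∀ Y : RedAV p ν, IsProductOfThreefolds Y → ∀ s : ℕ, 0 < s → ∀ n : ℕ, PoleAt s (C Y s) n

/-- Tate's formula at the integer two for all products of at most four abelian varieties of dimension
at most three. -/
def FourPole (C : ∀ Y : RedAV p ν, ℕ → Sys ℂ Y) : Prop :=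
  ∀ Y : RedAV p ν, Nat.card Y.X.I ≤ 4 → IsProductOfThreefolds Y → ∀ s : ℕ, 0 < s →
    PoleAt s (C Y s) 2

/-- Tate's formula and the agreement of numerical and homological equivalence for all products of
abelian varieties of dimension at most three. -/
def AllFormula (C : ∀ Y : RedAV p ν, ℕ → Sys ℂ Y) : Prop :=
  ∀ Y : RedAV p ν, IsProductOfThreefolds Y → ∀ s : ℕ, 0 < s → ∀ n : ℕ, Formula s (C Y s) n

end

end Pool.Agent.K7.H9.TP
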