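import Pool.Agent.K7.H9.TP.SysDefs
import Pool.Agent.R937.TZ.Geo
import Pool.Agent.Y137.SF.Defs

/-!
# Stable systems of cohomology classes of abelian varieties over finite fields
-/

set_option autoImplicit false
set_option linter.unusedSectionVars false
set_option linter.unusedVariables false

namespace Pool.Agent.K7.H9.TP

open NumberField Pool.Agent.H204R3.CM Pool.Agent.W547.KB Pool.Agent.W547.LD
open Pool.Agent.W495.TA Module
open Pool.Agent.R937.TZ (TSys)
open Pool.Agent.Y137.SF (AlgS)
open scoped TensorProduct

noncomputable section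

variable {p : ℕ} [Fact p.Prime] {ν : PadicAlgCl p ≃+* ℂ} {Ω : Type} [Field Ω] [CharZero Ω]
  {A : Classes p ν Ω}

/-- The system as a bundled object. -/
def IsStable.toTSys (h : IsStable A) : TSys p ν Ω where
  A := A
  unit f := h.linear.unit f
  divisor hκ f s hs hf := h.divisor hκ f s hs hf
  zero := h.linear.zero
  add := h.linear.add
  smul := h.linear.smul
  reindex := h.linear.reindex
  cup f g hf hg k hk := h.cup f g hf hg k hk
  pull k hk f hf := h.pull k hk f hf
  push Y' f g hfg hf := h.push Y' f g hfg hf

/-- **Tate classes on products of abelian varieties of dimension at most three.** -/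
theorem tfae_tate [IsAlgClosed Ω] (h : IsStable A) :
    List.TFAE [AllTate A, FourTate A, FourHodge A] :=
  Pool.Agent.R937.TZ.tfae (𝒜 := h.toTSys)

/-- The system `AlgS` is the smallest one. -/
theorem mem_of_algS (h : IsStable A) (hk : HasKnownClasses A) {W : Set ℕ} {Y : RedAV p ν} {κ : Type}
    {f : (TM Ω Y) [⋀^κ]→ₗ[Ω] Ω} (hf : AlgS Ω W Y κ f) : A Y κ f := by
  induction hf with
  | unit f => exact h.linear.unit f
  | divisor hκ f s hs hf => exact h.divisor hκ f s hs hf
  | weil _ hn f hf g hg => exact hk.weil hn f hf g hg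
  | surfaces hY f hf g hg => exact hk.surfaces hY f hf g hg
  | zero Y κ => exact h.linear.zero Y κ
  | add f g _ _ hf hg => exact h.linear.add f g hf hg
  | smul c f _ hf => exact h.linear.smul c f hf
  | reindex e f _ hf => exact h.linear.reindex e f hf
  | cup f g _ _ k hk hf hg => exact h.cup f g hf hg k hk
  | pull k hk f _ hf => exact h.pull k hk f hf
  | push k k' hk hk' hb b f _ g hg hf => exact h.push _ f g ⟨k, k', b, hk, hk', hb, hg⟩ hf

end

end Pool.Agent.K7.H9.TP
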