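import Pool.Agent.R937.PZ.Ana
import Pool.Agent.K7.H9.TP.Sys
import Pool.Agent.K7.H9.TP.PoleDefs
import Pool.Agent.W547.DR.Final

/-!
# The pole formula for products of abelian varieties of dimension at most three over finite fields
-/

set_option autoImplicit false
set_option linter.unusedSectionVars false
set_option linter.unusedVariables false

namespace Pool.Agent.K7.H9.TP

open NumberField Pool.Agent.H204R3.CM Pool.Agent.W547.KB Pool.Agent.W547.LD Pool.Agent.W547.HR
open Pool.Agent.W495.TA Module Equiv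
open Pool.Agent.W547.DR Pool.Agent.TH117.F5
open Pool.Agent.R299.ANA (IsFullSystem CycleSystemS)
open Pool.Agent.R937.PG (IsGoodAVP)

noncomputable section

variable {p : ℕ} [Fact p.Prime] {ν : PadicAlgCl p ≃+* ℂ} {Ω : Type} [Field Ω] [CharZero Ω]
  {L : Type} [Field L] [NumberField L] {j : L →+* ℂ} {Y : RedAV p ν}

theorem cup_add {n m : ℕ} (z z' : Coh Ω Y n) (w : Coh Ω Y m)
    (v : Fin (2 * n) ⊕ Fin (2 * m) → TM Ω Y) :
    cup (z + z') w v = cup z w v + cup z' w v := by
  unfold cup altSum
  rw [← Finset.sum_add_distrib]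
  refine Finset.sum_congr rfl fun σ _ => ?_
  have h1 : times (fun u => AlternatingMap.toMultilinearMap (z + z') u)
      (fun u => AlternatingMap.toMultilinearMap w u) (fun q => v (σ q)) =
      times (fun u => AlternatingMap.toMultilinearMap z u)
      (fun u => AlternatingMap.toMultilinearMap w u) (fun q => v (σ q)) +
      times (fun u => AlternatingMap.toMultilinearMap z' u)
      (fun u => AlternatingMap.toMultilinearMap w u) (fun q => v (σ q)) := add_mul _ _ _
  rw [h1, mul_add]

theorem cup_smul {n m : ℕ} (c : ℚ) (z : Coh Ω Y n) (w : Coh Ω Y m)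
    (v : Fin (2 * n) ⊕ Fin (2 * m) → TM Ω Y) :
    cup (c • z) w v = (c : Ω) * cup z w v := by
  have h1 : c • z = (c : Ω) • z := rat_smul_form c z
  rw [h1]
  unfold cup altSum
  rw [Finset.mul_sum]
  refine Finset.sum_congr rfl fun σ _ => ?_
  have h1 : times (fun u => AlternatingMap.toMultilinearMap ((c : Ω) • z) u)
      (fun u => AlternatingMap.toMultilinearMap w u) (fun q => v (σ q)) =
      (c : Ω) * times (fun u => AlternatingMap.toMultilinearMap z u)
      (fun u => AlternatingMap.toMultilinearMap w u) (fun q => v (σ q)) := mul_assoc _ _ _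
  rw [h1]
  ring

theorem cup_zero {n m : ℕ} (w : Coh Ω Y m)
    (v : Fin (2 * n) ⊕ Fin (2 * m) → TM Ω Y) :
    cup (0 : Coh Ω Y n) w v = 0 := by
  unfold cup altSum times
  refine Finset.sum_eq_zero fun σ _ => ?_
  beta_reduce
  change _ * ((0 : Ω) * _) = _
  ring

/-- Numerically trivial classes form a subspace. -/
theorem mem_numTriv {S : Sys Ω Y} {n : ℕ} {z : S n} :
    z ∈ numTriv S n ↔ NumTrivial S (z : Coh Ω Y n) := by
  constructor
  · intro hz
    induction hz using Submodule.span_induction with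
    | mem z hz => exact hz
    | zero => exact fun m _ w _ v => cup_zero w v
    | add z z' _ _ hz hz' =>
      intro m hm w hw v
      have h1 : ((z + z' : S n) : Coh Ω Y n) = (z : Coh Ω Y n) + (z' : Coh Ω Y n) := rfl
      rw [h1, cup_add, hz m hm w hw v, hz' m hm w hw v, add_zero]
    | smul c z _ hz =>
      intro m hm w hw v
      have h1 : ((c • z : S n) : Coh Ω Y n) = c • (z : Coh Ω Y n) := rfl
      rw [h1, cup_smul, hz m hm w hw v, mul_zero]
  · intro hz
    exact Submodule.subset_span hz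

/-- Classes that are linearly independent modulo numerical equivalence, with coefficients in `ℚ`,
are linearly independent. -/
theorem indep_mod {S : Sys Ω Y} (hS : RationalNumbers S) (n : ℕ) {ι : Type} (b : ι → S n)
    (hb : LinearIndependent ℚ fun i => (numTriv S n).mkQ (b i)) :
    LinearIndependent Ω fun i => (b i : Coh Ω Y n) := by
  classical
  rw [linearIndependent_iff']
  intro t c hc i0 hi0
  by_contra hne
  obtain ⟨l, hl⟩ : ∃ l : Ω →+ ℚ, l (c i0) ≠ 0 := by
    have h1 : c i0 ∉ (⊥ : Submodule ℚ Ω) := fun h => hne ((Submodule.mem_bot ℚ).1 h)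
    obtain ⟨l, hl, _⟩ := Submodule.exists_dual_map_eq_bot_of_notMem h1 inferInstance
    exact ⟨l.toAddMonoidHom, hl⟩
  have hmem : ∑ i ∈ t, l (c i) • b i ∈ numTriv S n := by
    refine mem_numTriv.2 ?_
    intro m hm w hw v
    obtain ⟨o, ho⟩ := hS
    have hcard : Fintype.card (Fin (2 * n) ⊕ Fin (2 * m)) =
        Fintype.card (Fin (finrank Ω (TM Ω Y))) := by
      rw [Fintype.card_sum, Fintype.card_fin, Fintype.card_fin, Fintype.card_fin]
      omega
    let e : Fin (2 * n) ⊕ Fin (2 * m) ≃ Fin (finrank Ω (TM Ω Y)) := Fintype.equivOfCardEq hcard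
    choose a ha using fun i => ho n m e (b i) (b i).2 w hw
    let v' : Fin (finrank Ω (TM Ω Y)) → TM Ω Y := fun k => v (e.symm k)
    have hv' : v = fun k => v' (e k) := by
      funext k
      change v k = v (e.symm (e k))
      rw [e.symm_apply_apply]
    have hcoe : ((∑ i ∈ t, l (c i) • b i : S n) : Coh Ω Y n) =
        ∑ i ∈ t, ((l (c i) : ℚ) : Ω) • (b i : Coh Ω Y n) := by
      rw [Submodule.coe_sum]
      refine Finset.sum_congr rfl fun i _ => ?_
      exact rat_smul_form (l (c i)) (b i : Coh Ω Y n)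
    have hlin : ∀ d : ι → Ω, cup (∑ i ∈ t, d i • (b i : Coh Ω Y n)) w v =
        ∑ i ∈ t, d i * cup (b i : Coh Ω Y n) w v := fun d =>
      altSum_sum_left t d (fun i => (b i : Coh Ω Y n)) w v
    have h2 : cup (∑ i ∈ t, c i • (b i : Coh Ω Y n)) w v = 0 := by
      rw [hc]
      exact cup_zero w v
    rw [hlin] at h2
    rw [hcoe, hlin, hv', Finset.sum_congr rfl fun i _ => by rw [ha i v']]
    rw [hv', Finset.sum_congr rfl fun i _ => by rw [ha i v']] at h2
    by_cases ho0 : o v' = 0
    · rw [ho0]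
      refine Finset.sum_eq_zero fun i _ => ?_
      ring
    · have h4 : ∑ i ∈ t, c i * (a i : Ω) = 0 := by
        have h5 : (∑ i ∈ t, c i * (a i : Ω)) * o v' = 0 := by
          rw [Finset.sum_mul, ← h2]
          refine Finset.sum_congr rfl fun i _ => ?_
          ring
        exact (mul_eq_zero.1 h5).resolve_right ho0
      have h5 := congrArg l h4
      rw [map_sum, map_zero] at h5
      have h6 : ∀ i, l (c i * (a i : Ω)) = l (c i) * a i := by
        intro i
        have h7 : c i * (a i : Ω) = (a i) • c i := by rw [Rat.smul_def, mul_comm]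
        rw [h7, map_rat_smul, smul_eq_mul, mul_comm]
      rw [Finset.sum_congr rfl fun i _ => h6 i] at h5
      have h7 : ∑ i ∈ t, ((l (c i) : ℚ) : Ω) * ((a i : Ω) * o v') =
          ((∑ i ∈ t, l (c i) * a i : ℚ) : Ω) * o v' := by
        rw [Rat.cast_sum, Finset.sum_mul]
        refine Finset.sum_congr rfl fun i _ => ?_
        rw [Rat.cast_mul]
        ring
      rw [h7, h5, Rat.cast_zero, zero_mul]
  have h3 : ∑ i ∈ t, l (c i) • (numTriv S n).mkQ (b i) = 0 := by
    have h4 : (numTriv S n).mkQ (∑ i ∈ t, l (c i) • b i) = 0 :=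
      (Submodule.Quotient.mk_eq_zero _).2 hmem
    rw [map_sum] at h4
    rw [← h4]
    exact Finset.sum_congr rfl fun i _ => (map_smul _ _ _).symm
  exact hl (linearIndependent_iff'.1 hb t (fun i => l (c i)) h3 i0 hi0)

instance finite_coh (n : ℕ) : FiniteDimensional Ω (Coh Ω Y n) :=
  (inferInstance : FiniteDimensional Ω ((TM Ω Y) [⋀^Fin (2 * n)]→ₗ[Ω] Ω))

/-- The rank modulo numerical equivalence is at most the dimension of the span of the classes. -/
theorem numRank_le {S : Sys Ω Y} (hS : RationalNumbers S) (n : ℕ) :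
    numRank S n ≤ finrank Ω (Submodule.span Ω (S n : Set (Coh Ω Y n))) := by
  classical
  let B := Basis.ofVectorSpace ℚ (S n ⧸ numTriv S n)
  have hsurj := (numTriv S n).mkQ_surjective
  choose b hb using fun i => hsurj (B i)
  have hli : LinearIndependent Ω fun i => (b i : Coh Ω Y n) := by
    refine indep_mod hS n b ?_
    have h1 : (fun i => (numTriv S n).mkQ (b i)) = fun i => B i := funext hb
    rw [h1]
    exact B.linearIndependent
  have hli2 : LinearIndependent Ω fun i => (⟨(b i : Coh Ω Y n),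
      Submodule.subset_span (b i).2⟩ : Submodule.span Ω (S n : Set (Coh Ω Y n))) := by
    refine LinearIndependent.of_comp (Submodule.span Ω (S n : Set (Coh Ω Y n))).subtype ?_
    exact hli
  have hfin := hli2.finite
  let _ := Fintype.ofFinite (Basis.ofVectorSpaceIndex ℚ (S n ⧸ numTriv S n))
  unfold numRank
  rw [Module.finrank_eq_card_basis B]
  exact hli2.fintype_card_le_finrank

/-- If the classes of cycles span the Tate classes in all degrees, then the rank modulo numerical
equivalence is the dimension of the space of Tate classes. -/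
theorem numRank_of_full (jO : L →+* Ω) (hY : Big Y.X j) {s : ℕ} {S : Sys Ω Y}
    (hF : IsFullSystem Ω Y s S) (n : ℕ) : numRank S n = finrank Ω (Tate Ω Y s n) := by
  have h1 : numTriv S n = ⊥ := by
    rw [eq_bot_iff]
    intro z hz
    refine (Submodule.mem_bot ℚ).2 (Subtype.ext ?_)
    exact Pool.Agent.R299.ANA.zero_of_trivial jO hY hF z.2 (mem_numTriv.1 hz)
  have h2 : numRank S n = finrank ℚ (S n) := by
    unfold numRank
    rw [h1]
    exact (Submodule.quotEquivOfEqBot ⊥ rfl).finrank_eq
  have h3 : Submodule.span Ω (S n : Set (Coh Ω Y n)) = Tate Ω Y s n := by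
    ext z
    exact Pool.Agent.R299.ANA.span_iff hF z
  have h4 : finrank Ω (Submodule.span Ω (S n : Set (Coh Ω Y n))) = finrank Ω (Tate Ω Y s n) := by
    exact congrArg (fun T : Submodule Ω ((TM Ω Y) [⋀^Fin (2 * n)]→ₗ[Ω] Ω) => finrank Ω T) h3
  exact h2.trans ((Pool.Agent.R299.ANA.finrank_span jO hY hF n).trans h4)

/-- The formula holds if all Tate classes are combinations of classes of cycles. -/
theorem poleAt_of_full (hY : Big Y.X j) {s : ℕ} (hs : 0 < s) {S : Sys ℂ Y}
    (hF : IsFullSystem ℂ Y s S) (n : ℕ) : PoleAt s S n := by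
  unfold PoleAt
  rw [numRank_of_full j hY hF n]
  exact zeta_order hY s hs n

theorem formula_of_full (hY : Big Y.X j) {s : ℕ} (hs : 0 < s) {S : Sys ℂ Y}
    (hF : IsFullSystem ℂ Y s S) (n : ℕ) : Formula s S n :=
  ⟨poleAt_of_full hY hs hF n, fun z hz hn => Pool.Agent.R299.ANA.zero_of_trivial j hY hF hz hn⟩

/-- The formula at `n` implies that the Tate classes of codimension `n` are combinations of classes
of cycles. -/
theorem span_of_poleAt {Y : RedAV p ν} {s : ℕ} (hs : 0 < s) {S : Sys ℂ Y}
    (hS : RationalNumbers S) {n : ℕ} (ht : ∀ z ∈ S n, IsTate s z) (h : PoleAt s S n)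
    (z : Coh ℂ Y n) (hz : IsTate s z) : z ∈ Submodule.span ℂ (S n : Set (Coh ℂ Y n)) := by
  obtain ⟨L, _, _, j, hj⟩ := exists_big Y
  have h1 := zeta_order hj s hs n
  have h2 : numRank S n = finrank ℂ (Tate ℂ Y s n) := by
    have h3 := h.symm.trans h1
    have h4 := WithTop.coe_injective h3
    omega
  have h5 : Submodule.span ℂ (S n : Set (Coh ℂ Y n)) ≤ Tate ℂ Y s n :=
    Submodule.span_le.2 fun w hw => ht w hw
  have h6 : finrank ℂ (Tate ℂ Y s n) ≤
      finrank ℂ (Submodule.span ℂ (S n : Set (Coh ℂ Y n))) := by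
    rw [← h2]
    exact numRank_le hS n
  have hfd : FiniteDimensional ℂ (Tate ℂ Y s n) := inferInstance
  have h7 := Submodule.eq_of_le_of_finrank_le (K := ℂ)
    (V := (TM ℂ Y) [⋀^Fin (2 * n)]→ₗ[ℂ] ℂ) (S₁ := Submodule.span ℂ (S n : Set (Coh ℂ Y n)))
    (S₂ := Tate ℂ Y s n) h5 h6
  have h8 : z ∈ Tate ℂ Y s n := hz
  rw [← h7] at h8
  exact h8

/-- **The pole formula for all products of abelian varieties of dimension at most three** is
equivalent to the formula at the integer two for products of at most four. -/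
theorem tfae_pole {𝒜 : Classes p ν ℂ} {C : ∀ Y : RedAV p ν, ℕ → Sys ℂ Y} (hC : IsCycleTheory 𝒜 C) :
    List.TFAE [AllPole C, FourPole C, AllFormula C, AllTate 𝒜, FourHodge 𝒜] := by
  have hpole : AllTate 𝒜 → ∀ Y : RedAV p ν, IsProductOfThreefolds Y → ∀ s : ℕ, 0 < s →
      IsFullSystem ℂ Y s (C Y s) := by
    intro h Y hY s hs
    exact ⟨hC.tate Y s hs, fun n z hz => (hC.mem Y s hs n z hz).1 (h Y hY s n hs z hz),
      hC.rational Y s hs⟩
  have hT : List.TFAE [AllTate 𝒜, FourTate 𝒜, FourHodge 𝒜] := tfae_tate hC.stable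
  tfae_have 1 → 2 := fun h Y _ hY s hs => h Y hY s hs 2
  tfae_have 2 → 4 := fun h => by
    refine (hT.out 0 1).2 ?_
    intro Y hc hY s hs f hf
    exact (hC.mem Y s hs 2 f hf).2 (span_of_poleAt hs (hC.rational Y s hs) (hC.tate Y s hs 2)
      (h Y hc hY s hs) f hf)
  tfae_have 4 → 3 := fun h Y hY s hs n => by
    obtain ⟨L, _, _, j, hj⟩ := exists_big Y
    exact formula_of_full hj hs (hpole h Y hY s hs) n
  tfae_have 3 → 1 := fun h Y hY s hs n => (h Y hY s hs n).1
  tfae_have 4 ↔ 5 := hT.out 0 2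
  tfae_finish

/-- **The pole formula for the abelian varieties `IsGoodAVP`.** -/
theorem goodPoleP {𝒜 : Classes p ν ℂ} {C : ∀ Y : RedAV p ν, ℕ → Sys ℂ Y} (hC : IsCycleTheory 𝒜 C)
    (hk : HasKnownClasses 𝒜) (Y : RedAV p ν) (hY : IsGoodAVP Y) (s : ℕ) (hs : 0 < s) (n : ℕ) :
    Formula s (C Y s) n := by
  obtain ⟨L, _, _, j, hj⟩ := exists_big Y
  refine formula_of_full hj hs ⟨hC.tate Y s hs, fun n z hz => ?_, hC.rational Y s hs⟩ n
  exact (hC.mem Y s hs n z hz).1
    (mem_of_algS hC.stable hk (Pool.Agent.R937.PG.main hY s n hs z hz))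

end

end Pool.Agent.K7.H9.TP
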