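import Pool.Agent.W495.TA.Defs

/-!
# Stable systems of cohomology classes of abelian varieties over finite fields: definitions
-/

set_option autoImplicit false

namespace Pool.Agent.K7.H9.TP

open Pool.Agent.H204R3.CM Pool.Agent.W547.KB Pool.Agent.W547.LD Pool.Agent.W495.TA
open scoped TensorProduct

noncomputable section

/-- The cohomology classes of `Y` with coefficients in `Ω`: alternating forms on the Tate module, in
variables indexed by the set `κ`. -/
abbrev Form {p : ℕ} [Fact p.Prime] {ν : PadicAlgCl p ≃+* ℂ} (Ω : Type) [Field Ω] [CharZero Ω]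
    (Y : RedAV p ν) (κ : Type) : Type := (TM Ω Y) [⋀^κ]→ₗ[Ω] Ω

/-- A system of cohomology classes, with coefficients in `Ω`, of the abelian varieties over finite
fields of characteristic `p`. -/
abbrev Classes (p : ℕ) [Fact p.Prime] (ν : PadicAlgCl p ≃+* ℂ) (Ω : Type) [Field Ω]
    [CharZero Ω] : Type 1 := (Y : RedAV p ν) → (κ : Type) → Form Ω Y κ → Prop

variable {p : ℕ} [Fact p.Prime] {ν : PadicAlgCl p ≃+* ℂ} {Ω : Type} [Field Ω] [CharZero Ω]

/-- The class `h` is the cup product of `f` and `g` (up to a factor). -/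
def IsProd {Y : RedAV p ν} {κ κ' : Type} [Fintype κ] [DecidableEq κ] [Fintype κ'] [DecidableEq κ']
    (f : Form Ω Y κ) (g : Form Ω Y κ') (h : Form Ω Y (κ ⊕ κ')) : Prop :=
  ∀ v : κ ⊕ κ' → TM Ω Y, h v = ∑ σ : Equiv.Perm (κ ⊕ κ'), ((Equiv.Perm.sign σ : ℤ) : Ω) *
    (f (fun k => v (σ (Sum.inl k))) * g (fun k => v (σ (Sum.inr k))))

/-- The class `g` of `Y` is the push-forward (integration over the fibres) of the class `f` of `Z` along
a projection `Z → Y`, where `Z` is isogenous to `Y × Y'` by the inclusions `h` and `h'`: insert a basis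
of the Tate module of `Y'`. -/
def IsFibreIntegral {Y Z : RedAV p ν} {κ κ' : Type} (Y' : RedAV p ν) (f : Form Ω Z (κ ⊕ κ'))
    (g : Form Ω Y κ) : Prop :=
  ∃ (h : TM Ω Y →ₗ[Ω] TM Ω Z) (h' : TM Ω Y' →ₗ[Ω] TM Ω Z) (b : Module.Basis κ' Ω (TM Ω Y')),
    IsFrobHom Ω Y Z h ∧ IsFrobHom Ω Y' Z h' ∧
    Function.Bijective (fun v : TM Ω Y × TM Ω Y' => h v.1 + h' v.2) ∧
    ∀ v : κ → TM Ω Y, g v = f (Sum.elim (fun k => h (v k)) (fun k => h' (b k)))

/-- The class `g` of `Y` is the reduction of the class `f` of the abelian variety of CM type. -/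
def IsReduction {Y : RedAV p ν} {κ : Type} (f : Y.X.H1 [⋀^κ]→ₗ[ℚ] ℚ) (g : Form Ω Y κ) : Prop :=
  ∀ v : κ → Y.X.H1, g (fun k => 1 ⊗ₜ[ℚ] v k) = ((f v : ℚ) : Ω)

variable (A : Classes p ν Ω)

/-- Stability under linear combinations and renaming of the variables; the classes of degree zero
belong to the system. -/
structure IsLinear : Prop where
  unit : ∀ {Y : RedAV p ν} {κ : Type} [IsEmpty κ] (f : Form Ω Y κ), A Y κ f
  zero : ∀ (Y : RedAV p ν) (κ : Type), A Y κ 0
  add : ∀ {Y : RedAV p ν} {κ : Type} (f g : Form Ω Y κ), A Y κ f → A Y κ g → A Y κ (f + g)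
  smul : ∀ {Y : RedAV p ν} {κ : Type} (c : Ω) (f : Form Ω Y κ), A Y κ f → A Y κ (c • f)
  reindex : ∀ {Y : RedAV p ν} {κ κ' : Type} (e : κ ≃ κ') (f : Form Ω Y κ), A Y κ f →
    A Y κ' (f.domDomCongr e)

/-- Tate classes of degree two over finite extensions (classes of divisors, by the theorem of Tate)
belong to the system. -/
def HasDivisors : Prop :=
  ∀ {Y : RedAV p ν} {κ : Type}, Nat.card κ = 2 → ∀ (f : Form Ω Y κ) (s : ℕ), 0 < s →
    IsTateClass Ω Y s 1 f → A Y κ f

/-- Stability under cup products. -/
def HasCups : Prop :=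
  ∀ {Y : RedAV p ν} {κ κ' : Type} [Fintype κ] [DecidableEq κ] [Fintype κ'] [DecidableEq κ']
    (f : Form Ω Y κ) (g : Form Ω Y κ'), A Y κ f → A Y κ' g → ∀ h : Form Ω Y (κ ⊕ κ'),
    IsProd f g h → A Y (κ ⊕ κ') h

/-- Stability under pull-backs along homomorphisms. -/
def HasPullbacks : Prop :=
  ∀ {Y Z : RedAV p ν} {κ : Type} (h : TM Ω Y →ₗ[Ω] TM Ω Z), IsFrobHom Ω Y Z h →
    ∀ f : Form Ω Z κ, A Z κ f → A Y κ (f.compLinearMap h)

/-- Stability under push-forwards along projections. -/
def HasPushforwards : Prop :=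
  ∀ {Y Z : RedAV p ν} {κ κ' : Type} (Y' : RedAV p ν) (f : Form Ω Z (κ ⊕ κ')) (g : Form Ω Y κ),
    IsFibreIntegral Y' f g → A Z (κ ⊕ κ') f → A Y κ g

/-- The system contains the classes of degree zero and the Tate classes of degree two, and is stable
under linear combinations, cup products, pull-backs along homomorphisms, and push-forwards along
projections. The linear combinations of the classes of algebraic cycles are such a system. -/
structure IsStable : Prop where
  linear : IsLinear A
  divisor : HasDivisors A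
  cup : HasCups A
  pull : HasPullbacks A
  push : HasPushforwards A

/-- The system contains the reductions of the Weil classes of imaginary quadratic fields on abelian
varieties of CM type of dimension four or six and of split Weil type (algebraic, by theorems of
Markman), and the reductions of the Hodge classes of degree four on products of elliptic curves and
abelian surfaces with complex multiplication (algebraic, by the theorem of Ramón Marí). -/
structure HasKnownClasses : Prop where
  weil : ∀ {Y : RedAV p ν} {n : ℕ}, (n = 4 ∨ n = 6) → ∀ f : Y.X.H1 [⋀^Fin n]→ₗ[ℚ] ℚ,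
    IsSplitWeilClass Y.X n f → ∀ g : Form Ω Y (Fin n), IsReduction f g → A Y (Fin n) g
  surfaces : ∀ {Y : RedAV p ν}, (∀ i, Module.finrank ℚ (Y.X.factor i).E ≤ 4) →
    ∀ f : Y.X.H1 [⋀^Fin 4]→ₗ[ℚ] ℚ, IsHodge Y.X.per f → ∀ g : Form Ω Y (Fin 4),
      IsReduction f g → A Y (Fin 4) g

/-- The factors of `Y` have dimension at most three: `Y` is a product of any number of abelian
varieties of dimension at most three. -/
def IsProductOfThreefolds (Y : RedAV p ν) : Prop := ∀ i, Module.finrank ℚ (Y.X.factor i).E ≤ 6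

/-- All Tate classes of `Y`, of all degrees and over all finite extensions, belong to the system. -/
def TateOn (Y : RedAV p ν) : Prop :=
  ∀ s m : ℕ, 0 < s → ∀ f : Form Ω Y (Fin (2 * m)), IsTateClass Ω Y s m f → A Y (Fin (2 * m)) f

/-- All Tate classes, of all degrees and over all finite extensions, on products of any number of
abelian varieties of dimension at most three belong to the system. -/
def AllTate : Prop := ∀ Y : RedAV p ν, IsProductOfThreefolds Y → TateOn A Y

/-- The Tate classes of degree four on products of at most four abelian varieties of dimension at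
most three belong to the system. -/
def FourTate : Prop :=
  ∀ Y : RedAV p ν, Nat.card Y.X.I ≤ 4 → IsProductOfThreefolds Y →
    ∀ s : ℕ, 0 < s → ∀ f : Form Ω Y (Fin 4), IsTateClass Ω Y s 2 f → A Y (Fin 4) f

/-- The reductions of the Hodge classes of degree four on products of at most four abelian varieties
of CM type of dimension at most three belong to the system. -/
def FourHodge : Prop :=
  ∀ Y : RedAV p ν, Nat.card Y.X.I ≤ 4 → IsProductOfThreefolds Y →
    ∀ f : Y.X.H1 [⋀^Fin 4]→ₗ[ℚ] ℚ, IsHodge Y.X.per f → ∀ g : Form Ω Y (Fin 4),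
      IsReduction f g → A Y (Fin 4) g

end

end Pool.Agent.K7.H9.TP
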